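import Pool.Agent.KS6_83.PT.J

set_option autoImplicit false

open Complex Metric Set Polynomial
open scoped ComplexConjugate

namespace Pool.Agent.Results.MP_cf143d_an.AllMaximisers

/-- `H^∞` of the open unit disc. -/
def Hinf : Set (ℂ → ℂ) :=
  {g | DifferentiableOn ℂ g (ball 0 1) ∧ ∃ K : ℝ, ∀ z ∈ ball (0 : ℂ) 1, ‖g z‖ ≤ K}

/-- The supremum norm over the disc. -/
noncomputable def supNorm (g : ℂ → ℂ) : ℝ := sSup {x | ∃ z ∈ ball (0 : ℂ) 1, x = ‖g z‖}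

/-- The quotient norm `‖h + p H^∞‖`. -/
noncomputable def qnorm (h : ℂ → ℂ) (p : ℂ[X]) : ℝ :=
  sInf {x | ∃ g ∈ Hinf, x = supNorm (fun z => h z - p.eval z * g z)}

/-- `P_{n,r}`: polynomials of degree `n` all of whose zeros lie in `|z| ≤ r`. -/
def P (n : ℕ) (r : ℝ) : Set ℂ[X] := {p | p.degree = n ∧ ∀ z : ℂ, p.eval z = 0 → ‖z‖ ≤ r}

/-- `M_h(n, r)`. -/
noncomputable def M (h : ℂ → ℂ) (n : ℕ) (r : ℝ) : ℝ := sSup {x | ∃ p ∈ P n r, x = qnorm h p}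

/-- The bounded operators of `n`-dimensional complex Hilbert space. -/
abbrev Op (n : ℕ) : Type := EuclideanSpace ℂ (Fin n) →L[ℂ] EuclideanSpace ℂ (Fin n)

/-- `h(T)`, by the Taylor series of `h` at `0`. -/
noncomputable def apply (n : ℕ) (h : ℂ → ℂ) (T : Op n) : Op n :=
  ∑' k : ℕ, (iteratedDeriv k h 0 / (k.factorial : ℂ)) • T ^ k

/-- The contractions of spectral radius at most `r`. -/
def Ops (n : ℕ) (r : ℝ) : Set (Op n) := {T | ‖T‖ ≤ 1 ∧ ∀ μ ∈ spectrum ℂ T, ‖μ‖ ≤ r}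

/-- The explicit upper triangular Toeplitz operator `T_a` on `ℂ^n`: diagonal entries `a`, and entry
`(1 - |a|^2) (-conj a)^(j-i-1)` in row `i` and column `j` for `i < j`. -/
noncomputable def Top (n : ℕ) (a : ℂ) : Op n :=
  Matrix.toEuclideanCLM (𝕜 := ℂ) (Matrix.of fun i j : Fin n => if i = j then a else if i < j then
    ((1 - ‖a‖ ^ 2 : ℝ) : ℂ) * (-(conj a)) ^ ((j : ℕ) - (i : ℕ) - 1) else 0)

/-- The points `a` of the circle `|a| = r` at which `‖h(T_a)‖` is largest. -/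
def maxPoints (n : ℕ) (r : ℝ) (h : ℂ → ℂ) : Set ℂ :=
  {a | ‖a‖ = r ∧ ∀ b : ℂ, ‖b‖ = r → ‖apply n h (Top n b)‖ ≤ ‖apply n h (Top n a)‖}

/-- The supremum `M_h(n, r)` is attained, both over polynomials and in the operator form, and it is
`‖h(T_a)‖` for `a ∈ maxPoints`, which is not empty. -/
def Value (n : ℕ) (r : ℝ) (h : ℂ → ℂ) : Prop :=
  IsGreatest {x | ∃ p ∈ P n r, x = qnorm h p} (M h n r) ∧
  IsGreatest {x | ∃ T ∈ Ops n r, x = ‖apply n h T‖} (M h n r) ∧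
  (maxPoints n r h).Nonempty ∧ ∀ a ∈ maxPoints n r h, M h n r = ‖apply n h (Top n a)‖

/-- The finite Blaschke product with zeros `s` (with multiplicity); it is `1` for `s = 0`. -/
noncomputable def blaschke (s : Multiset ℂ) (z : ℂ) : ℂ := (s.map (fun b => (z - b) / (1 - conj b * z))).prod

/-- On the disc, `h` is the constant `c` times a finite Blaschke product of degree `< n`. -/
def IsScaledBlaschke (n : ℕ) (h : ℂ → ℂ) (c : ℂ) : Prop :=
  ∃ s : Multiset ℂ, s.card < n ∧ (∀ b ∈ s, ‖b‖ < 1) ∧ ∀ z ∈ ball (0 : ℂ) 1, h z = c * blaschke s z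

/-- `h` is not a constant times a finite Blaschke product of degree `< n`. -/
def NotScaled (n : ℕ) (h : ℂ → ℂ) : Prop := ¬ ∃ c : ℂ, IsScaledBlaschke n h c

/-- The maximisers are exactly the polynomials `c (z - a)^n`, `c ≠ 0`, `a ∈ S`. -/
def MaxPolysAre (n : ℕ) (r : ℝ) (h : ℂ → ℂ) (S : Set ℂ) : Prop :=
  ∀ p : ℂ[X], (p ∈ P n r ∧ qnorm h p = M h n r) ↔ ∃ c a : ℂ, c ≠ 0 ∧ a ∈ S ∧ p = C c * (X - C a) ^ n

/-- The maximising operators are exactly the operators unitarily equivalent to `T_a`, `a ∈ S`. -/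
def MaxOpsAre (n : ℕ) (r : ℝ) (h : ℂ → ℂ) (S : Set ℂ) : Prop :=
  ∀ T : Op n, (T ∈ Ops n r ∧ ‖apply n h T‖ = M h n r) ↔
    ∃ a ∈ S, ∃ U : EuclideanSpace ℂ (Fin n) ≃ₗᵢ[ℂ] EuclideanSpace ℂ (Fin n), ∀ y, U (Top n a y) = T (U y)

lemma supNorm_nonneg (g : ℂ → ℂ) : 0 ≤ supNorm g := by
  apply Real.sSup_nonneg
  rintro x ⟨z, _, rfl⟩
  exact norm_nonneg _

lemma le_supNorm {g : ℂ → ℂ} {K : ℝ} (hK : ∀ z ∈ ball (0 : ℂ) 1, ‖g z‖ ≤ K) {z : ℂ} (hz : z ∈ ball (0 : ℂ) 1) :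
    ‖g z‖ ≤ supNorm g := by
  apply le_csSup
  · refine ⟨K, ?_⟩
    rintro x ⟨w, hw, rfl⟩
    exact hK w hw
  · exact ⟨z, hz, rfl⟩

lemma supNorm_le {g : ℂ → ℂ} {K : ℝ} (hK : ∀ z ∈ ball (0 : ℂ) 1, ‖g z‖ ≤ K) : supNorm g ≤ K := by
  apply csSup_le
  · exact ⟨‖g 0‖, 0, mem_ball_self one_pos, rfl⟩
  · rintro x ⟨w, hw, rfl⟩
    exact hK w hw

lemma poly_bound (p : ℂ[X]) : ∃ K : ℝ, 0 ≤ K ∧ ∀ z ∈ ball (0 : ℂ) 1, ‖p.eval z‖ ≤ K := by
  obtain ⟨K, hK⟩ := (isCompact_closedBall (0 : ℂ) 1).exists_bound_of_continuousOn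
    (f := fun z => p.eval z) p.continuous.continuousOn
  exact ⟨|K|, abs_nonneg K, fun z hz => (hK z (ball_subset_closedBall hz)).trans (le_abs_self K)⟩

lemma diff_bound {h g : ℂ → ℂ} (hh : h ∈ Hinf) (hg : g ∈ Hinf) (p : ℂ[X]) :
    ∃ K : ℝ, ∀ z ∈ ball (0 : ℂ) 1, ‖h z - p.eval z * g z‖ ≤ K := by
  obtain ⟨K1, hK1⟩ := hh.2
  obtain ⟨K2, hK2⟩ := hg.2
  obtain ⟨K3, hK30, hK3⟩ := poly_bound p
  refine ⟨K1 + K3 * K2, fun z hz => ?_⟩
  refine (norm_sub_le _ _).trans (add_le_add (hK1 z hz) ?_)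
  rw [norm_mul]
  exact mul_le_mul (hK3 z hz) (hK2 z hz) (norm_nonneg _) hK30

lemma qnorm_le {h g : ℂ → ℂ} (hg : g ∈ Hinf) (p : ℂ[X]) {γ : ℝ}
    (hb : ∀ z ∈ ball (0 : ℂ) 1, ‖h z - p.eval z * g z‖ ≤ γ) : qnorm h p ≤ γ := by
  have hbb : BddBelow {x | ∃ g ∈ Hinf, x = supNorm (fun z => h z - p.eval z * g z)} := by
    refine ⟨0, ?_⟩
    rintro x ⟨g', _, rfl⟩
    exact supNorm_nonneg _
  exact (csInf_le hbb ⟨g, hg, rfl⟩).trans (supNorm_le hb)

lemma le_qnorm {h : ℂ → ℂ} (p : ℂ[X]) {γ : ℝ}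
    (hb : ∀ g ∈ Hinf, γ ≤ supNorm (fun z => h z - p.eval z * g z)) : γ ≤ qnorm h p := by
  apply le_csInf
  · exact ⟨_, fun _ => 0, ⟨by fun_prop, 0, by simp⟩, rfl⟩
  · rintro x ⟨g, hg, rfl⟩
    exact hb g hg

/-- If `h - p g` is bounded on the disc, then so is `g`. -/
lemma bounded_of {r : ℝ} (hr0 : 0 < r) (hr1 : r < 1) (p : ℂ[X]) (hp : ∀ z : ℂ, p.eval z = 0 → ‖z‖ ≤ r)
    {h g : ℂ → ℂ} (hh : h ∈ Hinf) (hg : DifferentiableOn ℂ g (ball 0 1)) {γ : ℝ}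
    (hb : ∀ z ∈ ball (0 : ℂ) 1, ‖h z - p.eval z * g z‖ ≤ γ) : g ∈ Hinf := by
  refine ⟨hg, ?_⟩
  obtain ⟨K1, hK1⟩ := hh.2
  set t : ℝ := (1 + r) / 2 with ht
  have ht1 : t < 1 := by rw [ht]; linarith
  have htr : r < t := by rw [ht]; linarith
  have ht0 : 0 < t := by linarith
  obtain ⟨K2, hK2⟩ := (isCompact_closedBall (0 : ℂ) t).exists_bound_of_continuousOn
    (hg.continuousOn.mono (closedBall_subset_ball ht1))
  set S : Set ℂ := closedBall 0 1 ∩ {z | t ≤ ‖z‖} with hS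
  have hSc : IsCompact S := (isCompact_closedBall (0 : ℂ) 1).inter_right
    (isClosed_le continuous_const continuous_norm)
  have hSne : S.Nonempty := ⟨1, by simp, by simpa using ht1.le⟩
  obtain ⟨w, hw, hmin⟩ := hSc.exists_isMinOn hSne (f := fun z => ‖p.eval z‖) (p.continuous.norm.continuousOn)
  have hw0 : 0 < ‖p.eval w‖ := by
    rw [norm_pos_iff]
    intro h0
    have h1 := hp w h0
    have h2 : t ≤ ‖w‖ := hw.2
    linarith
  refine ⟨max K2 ((K1 + γ) / ‖p.eval w‖), fun z hz => ?_⟩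
  by_cases hzt : ‖z‖ ≤ t
  · exact (hK2 z (mem_closedBall_zero_iff.mpr hzt)).trans (le_max_left _ _)
  · push Not at hzt
    have hzS : z ∈ S := ⟨ball_subset_closedBall hz, hzt.le⟩
    have h1 : ‖p.eval w‖ ≤ ‖p.eval z‖ := hmin hzS
    have h2 : ‖p.eval z * g z‖ ≤ K1 + γ := by
      have e : p.eval z * g z = h z - (h z - p.eval z * g z) := by ring
      rw [e]
      exact (norm_sub_le _ _).trans (add_le_add (hK1 z hz) (hb z hz))
    rw [norm_mul] at h2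
    refine le_trans ?_ (le_max_right _ _)
    rw [le_div_iff₀ hw0]
    nlinarith [norm_nonneg (g z)]

open Pool.Agent.KS6_83.PT Pool.Agent.Helper654.Ptak in
/-- **The value `M_h(n, r)` with all maximising polynomials and all maximising operators.** -/
theorem result (n : ℕ) (hn : 1 ≤ n) (r : ℝ) (hr0 : 0 < r) (hr1 : r < 1) :
    (∀ h ∈ Hinf, Value n r h ∧
      (∀ c : ℂ, IsScaledBlaschke n h c → ∀ p ∈ P n r, qnorm h p = ‖c‖ ∧ M h n r = ‖c‖) ∧
      (NotScaled n h → MaxPolysAre n r h (maxPoints n r h) ∧ MaxOpsAre n r h (maxPoints n r h))) ∧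
    (∀ m : ℕ, n ≤ m → NotScaled n (fun z => z ^ m) ∧ maxPoints n r (fun z => z ^ m) = sphere 0 r) := by
  obtain ⟨m, rfl⟩ : ∃ m, n = m + 1 := ⟨n - 1, by omega⟩
  have hfc : ∀ (f : ℂ → ℂ) (T : Op (m + 1)), apply (m + 1) f T = fc f T := fun f T => rfl
  have hTop : ∀ a : ℂ, Top (m + 1) a = Uop (m + 1) a := fun a => rfl
  have hmemP : ∀ (z : Fin (m + 1) → ℂ) {c : ℂ}, c ≠ 0 → (∀ k, ‖z k‖ ≤ r) → C c * PZ z ∈ P (m + 1) r := by
    intro z c hc hz
    refine ⟨by rw [degree_mul, degree_C hc, zero_add, PZ_degree], ?_⟩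
    intro w hw
    rw [eval_mul, eval_C] at hw
    rcases mul_eq_zero.mp hw with h | h
    · exact absurd h hc
    · exact PZ_root_le hz w h
  have hPex : ∀ p ∈ P (m + 1) r, ∃ (c : ℂ) (z : Fin (m + 1) → ℂ), c ≠ 0 ∧ (∀ k, ‖z k‖ ≤ r) ∧ p = C c * PZ z := by
    intro p hp
    exact exists_PZ (K := {z | ‖z‖ ≤ r}) hp.1 hp.2
  -- Sarason's identity
  have hq : ∀ {h : ℂ → ℂ}, h ∈ Hinf → ∀ {z : Fin (m + 1) → ℂ}, (∀ k, ‖z k‖ ≤ r) → ∀ (D : Model r z) {c : ℂ},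
      c ≠ 0 → qnorm h (C c * PZ z) = ‖fc h D.T‖ := by
    intro h hh z hz D c hc
    apply le_antisymm
    · apply le_of_forall_gt_imp_ge_of_dense
      intro γ hγ
      obtain ⟨g, hg, hb⟩ := D.hard hr0 hr1 hh.1 hz hγ
      have hb' : ∀ w ∈ ball (0 : ℂ) 1, ‖h w - (C c * PZ z).eval w * (c⁻¹ * g w)‖ ≤ γ := by
        intro w hw
        have e : (C c * PZ z).eval w * (c⁻¹ * g w) = (PZ z).eval w * g w := by
          rw [eval_mul, eval_C]
          field_simp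
        rw [e]
        exact hb w hw
      have hgd : DifferentiableOn ℂ (fun w => c⁻¹ * g w) (ball 0 1) := hg.const_mul _
      exact qnorm_le (bounded_of hr0 hr1 _ (hmemP z hc hz).2 hh hgd hb') _ hb'
    · apply le_qnorm
      intro g hg
      obtain ⟨K, hK⟩ := diff_bound hh hg (C c * PZ z)
      have hcg : DifferentiableOn ℂ (fun w => c * g w) (ball 0 1) := hg.1.const_mul c
      apply D.easy hr0 hr1 hh.1 hcg hz
      intro w hw
      have e : (PZ z).eval w * (c * g w) = (C c * PZ z).eval w * g w := by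
        rw [eval_mul, eval_C]; ring
      rw [e]
      exact le_supNorm hK hw
  have hconv := convex_kl_closedBall hr0 hr1
  have main : ∀ h ∈ Hinf, Value (m + 1) r h ∧
      (∀ c : ℂ, IsScaledBlaschke (m + 1) h c → ∀ p ∈ P (m + 1) r, qnorm h p = ‖c‖ ∧ M h (m + 1) r = ‖c‖) ∧
      (NotScaled (m + 1) h → MaxPolysAre (m + 1) r h (maxPoints (m + 1) r h) ∧
        MaxOpsAre (m + 1) r h (maxPoints (m + 1) r h)) := by
    intro h hh
    obtain ⟨z₀, hz₀, hmax₀⟩ := exists_maximiser (m := m) hr0 hr1 hh.1 (K := closedBall 0 r) (le_refl _)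
      (isCompact_closedBall 0 r) ⟨0, mem_closedBall_self hr0.le⟩
    have hz₀' : ∀ k, ‖z₀ k‖ ≤ r := fun k => mem_closedBall_zero_iff.mp (hz₀ k)
    obtain ⟨D₀⟩ := exists_model hr0 hr1 z₀ hz₀'
    obtain ⟨μ, hμ⟩ : ∃ μ, μ = ‖fc h D₀.T‖ := ⟨_, rfl⟩
    have hdom : ∀ z' : Fin (m + 1) → ℂ, (∀ k, ‖z' k‖ ≤ r) → ∀ D' : Model r z', ‖fc h D'.T‖ ≤ μ := by
      intro z' hz' D'
      rw [hμ]
      exact hmax₀ D₀ z' (fun k => mem_closedBall_zero_iff.mpr (hz' k)) D'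
    have hG1 : IsGreatest {x | ∃ p ∈ P (m + 1) r, x = qnorm h p} μ := by
      refine ⟨⟨C 1 * PZ z₀, hmemP z₀ one_ne_zero hz₀', by rw [hq hh hz₀' D₀ one_ne_zero, hμ]⟩, ?_⟩
      rintro x ⟨p, hp, rfl⟩
      obtain ⟨c, z, hc, hz, rfl⟩ := hPex p hp
      obtain ⟨D⟩ := exists_model hr0 hr1 z hz
      rw [hq hh hz D hc]
      exact hdom z hz D
    have hMμ : M h (m + 1) r = μ := hG1.csSup_eq
    have hopz : ∀ T ∈ Ops (m + 1) r, ‖apply (m + 1) h T‖ ≤ μ := by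
      intro T hT
      obtain ⟨z, hz, hp⟩ := exists_PZ_of_spectrum T hT.2
      obtain ⟨D⟩ := exists_model hr0 hr1 z hz
      exact (D.fc_dom hr0 hr1 hh.1 hz T hT.1 hp).trans (hdom z hz D)
    -- a maximising point of the circle
    have hTopOps : ∀ a : ℂ, ‖a‖ = r → Top (m + 1) a ∈ Ops (m + 1) r := by
      intro a ha
      refine ⟨Uop_norm (m + 1) a (ha.le.trans hr1.le), ?_⟩
      intro ν hν
      rw [spectrum_of_annih (Top (m + 1) a) (Uop_annih (m + 1) a) ν hν, ha]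
    obtain ⟨s, hrs, _, K', hK'⟩ := tay_bound hr0 hr1 hh.1
    obtain ⟨a₀, ha₀, hmain⟩ := series_gen (m := m) hr0 hr1 hrs (tay h) K' hK'
    have ha₀μ : ‖apply (m + 1) h (Top (m + 1) a₀)‖ = μ := by
      apply le_antisymm (hopz _ (hTopOps a₀ ha₀))
      rw [hμ]
      exact hmain (EuclideanSpace ℂ (Fin (m + 1))) D₀.T D₀.hT z₀ hz₀' D₀.hp
    have hmp : ∀ a : ℂ, a ∈ maxPoints (m + 1) r h ↔ ‖a‖ = r ∧ ‖apply (m + 1) h (Top (m + 1) a)‖ = μ := by
      intro a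
      constructor
      · intro ha
        exact ⟨ha.1, le_antisymm (hopz _ (hTopOps a ha.1)) (by rw [← ha₀μ]; exact ha.2 a₀ ha₀)⟩
      · rintro ⟨h1, h2⟩
        exact ⟨h1, fun b hb => by rw [h2]; exact hopz _ (hTopOps b hb)⟩
    have hval : Value (m + 1) r h := by
      refine ⟨by rw [hMμ]; exact hG1, ?_, ⟨a₀, (hmp a₀).mpr ⟨ha₀, ha₀μ⟩⟩, ?_⟩
      · rw [hMμ]
        refine ⟨⟨Top (m + 1) a₀, hTopOps a₀ ha₀, ha₀μ.symm⟩, ?_⟩
        rintro x ⟨T, hT, rfl⟩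
        exact hopz T hT
      · intro a ha
        rw [hMμ, ((hmp a).mp ha).2]
    refine ⟨hval, ?_, ?_⟩
    · rintro c ⟨t, ht1, ht2, ht3⟩ p hp
      have hall : ∀ p ∈ P (m + 1) r, qnorm h p = ‖c‖ := by
        intro p hp
        obtain ⟨c', z, hc', hz, rfl⟩ := hPex p hp
        obtain ⟨D⟩ := exists_model hr0 hr1 z hz
        rw [hq hh hz D hc']
        exact D.scaled hr0 hr1 hh.1 hz ht1 ht2 ht3
      refine ⟨hall p hp, ?_⟩
      obtain ⟨p', hp', hx⟩ := hG1.1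
      rw [hMμ, hx, hall p' hp']
    · intro hnot
      have hnot' : ¬ Pool.Agent.KS6_83.PT.IsScaledBlaschke (m + 1) h := by
        rintro ⟨c, t, h1, h2, h3⟩
        exact hnot ⟨c, t, h1, h2, h3⟩
      refine ⟨?_, ?_⟩
      · intro p
        constructor
        · rintro ⟨hp, hpM⟩
          obtain ⟨c, z, hc, hz, rfl⟩ := hPex p hp
          obtain ⟨D⟩ := exists_model hr0 hr1 z hz
          rw [hq hh hz D hc, hMμ] at hpM
          rcases dichotomy hr0 hr1 hh.1 (K := closedBall 0 r) (le_refl _) hconv isClosed_closedBall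
            (fun k => mem_closedBall_zero_iff.mpr (hz k)) D (by
            intro z' hz' D'
            rw [hpM]
            exact hdom z' (fun k => mem_closedBall_zero_iff.mp (hz' k)) D') with h1 | ⟨a, ha, hza⟩
          · exact absurd h1 hnot'
          · rw [frontier_closedBall (0 : ℂ) hr0.ne', mem_sphere_zero_iff_norm] at ha
            have hz2 : z = fun _ => a := funext hza
            subst hz2
            refine ⟨c, a, hc, (hmp a).mpr ⟨ha, ?_⟩, by rw [PZ_const]⟩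
            rw [hfc, hTop, ← model_const hr0 hr1 hh.1 ha.le D, hpM]
        · rintro ⟨c, a, hc, ha, rfl⟩
          obtain ⟨h1, h2⟩ := (hmp a).mp ha
          obtain ⟨D⟩ := exists_model (m := m) hr0 hr1 (fun _ => a) (fun _ => h1.le)
          rw [← PZ_const]
          refine ⟨hmemP _ hc (fun _ => h1.le), ?_⟩
          rw [hq hh (fun _ => h1.le) D hc, hMμ, model_const hr0 hr1 hh.1 h1.le D, ← h2]
          rfl
      · intro T
        constructor
        · rintro ⟨hT, hTM⟩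
          rw [hMμ] at hTM
          obtain ⟨a, ha1, ha2, U, hU⟩ := ops_unique hr0 hr1 hh.1 hnot' hdom T hT.1 hT.2 hTM
          exact ⟨a, (hmp a).mpr ⟨ha1, ha2⟩, U, hU⟩
        · rintro ⟨a, ha, U, hU⟩
          obtain ⟨h1, h2⟩ := (hmp a).mp ha
          obtain ⟨e1, e2, e3⟩ := equiv_fc hr0 hr1 hh.1 h1.le (Uop_norm (m + 1) a (h1.le.trans hr1.le))
            (Uop_annih (m + 1) a) U hU
          refine ⟨⟨e1, ?_⟩, ?_⟩
          · intro ν hν
            rw [spectrum_of_annih T e2 ν hν, h1]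
          · rw [hMμ, ← h2]
            exact e3
  refine ⟨main, ?_⟩
  intro k hk
  refine ⟨?_, ?_⟩
  · rintro ⟨c, s, h1, h2, h3⟩
    exact pow_not_scaled hk ⟨c, s, h1, h2, h3⟩
  · ext a
    constructor
    · intro ha
      exact mem_sphere_zero_iff_norm.mpr ha.1
    · intro ha
      have ha' : ‖a‖ = r := mem_sphere_zero_iff_norm.mp ha
      refine ⟨ha', ?_⟩
      intro b hb
      have hv : ∀ a : ℂ, ‖apply (m + 1) (fun z => z ^ k) (Top (m + 1) a)‖ = ‖(Uop (m + 1) a) ^ k‖ := fun a =>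
        congrArg norm (fc_pow k (Uop (m + 1) a))
      rw [hv, hv, Uop_pow_circle hr0 b hb k, Uop_pow_circle hr0 a ha' k]

end Pool.Agent.Results.MP_cf143d_an.AllMaximisers
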